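import Pool.Agent.helper797_cs.PZ4
import Pool.Agent.helper797_cs.PF4
import Pool.Agent.helper797_cs.PW2

/-!
# A model of ZFC with a cardinal that is measurable in `C*`
-/

set_option autoImplicit false

namespace Pool.Agent.Results.MP_9a6faa_lc.CstarMeasurable

open Pool.Agent.W868 Pool.Agent.R587 Pool.Agent.helper797_cs

/-- Let `U` be a normal measure on `κ` and `V = L[U]`. Then there is a countable transitive model
`N` of ZFC in which some cardinal is measurable in `C*`: there are `κ'` and `D` such that `D` is an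
element of the inner model `C*` of `N` and `D` is, in this inner model, a `κ'`-complete
nonprincipal ultrafilter on the uncountable ordinal `κ'`. -/
theorem result {κ : Cardinal.{0}} {U : ZFSet.{0}} (hU : IsNormalMeasure κ U) (hV : VLU U) :
    ∃ N : Set ZFSet.{0}, N.Countable ∧ IsZFC N ∧ ∃ κ' D, MeasIn (Cst N) κ' D := by
  obtain ⟨lam, I, ρ, h1, h2, h3, h4⟩ := U_mem hU hV
  obtain ⟨α, hα⟩ := h4 {x | ∃ α, x ∈ Lp (CofB (Bset lam ρ)) α} (isZF_CB _) (ord_CB _) (sbs_CB _)
  exact partB h1 h2 h3 hU hα

end Pool.Agent.Results.MP_9a6faa_lc.CstarMeasurable
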